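import Pool.Agent.Y2.Ds.Pi
import Pool.Agent.Helper927.DistD.Final

/-!
The number of submodules over the endomorphism ring, for modules over a finite direct product of
artinian chain rings.
-/

set_option autoImplicit false

universe u v

namespace Pool.Agent.Y2.Ds

open Pool.Agent.Dist14

theorem LBd.of_surjective {R S : Type u} [Ring R] [Ring S] (f : R →+* S)
    (hf : Function.Surjective f) {N : ℕ} (h : LBd R N) : LBd S N := by
  intro M _ _
  letI : Module R M := Module.compHom M f
  let toS : Module.End R M → Module.End S M := fun ψ =>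
    { toFun := ψ
      map_add' := ψ.map_add
      map_smul' := fun s z => by
        obtain ⟨r, rfl⟩ := hf s
        exact ψ.map_smul r z }
  let lift : Submodule (Module.End S M) M → Submodule (Module.End R M) M := fun U =>
    { carrier := U
      add_mem' := fun ha hb => U.add_mem ha hb
      zero_mem' := U.zero_mem
      smul_mem' := fun ψ z hz => U.smul_mem (toS ψ) hz }
  have hinj : Function.Injective lift := by
    intro U V hUV
    ext x
    exact SetLike.ext_iff.1 hUV x
  obtain ⟨h1, h2⟩ := h M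
  exact ⟨Finite.of_injective lift hinj, (Nat.card_le_card_of_injective lift hinj).trans h2⟩

/-- the component of a submodule -/
noncomputable def compSub {n : ℕ} {B : Fin n → Type u} [∀ i, Ring (B i)] (M : Type u)
    [AddCommGroup M] [Module (∀ i, B i) M] (U : Submodule (Module.End (∀ i, B i) M) M)
    (i : Fin n) : Submodule (Module.End (B i) (piComp (B := B) M i)) (piComp (B := B) M i) where
  carrier := {z | (z : M) ∈ U}
  add_mem' := fun ha hb => U.add_mem ha hb
  zero_mem' := U.zero_mem
  smul_mem' := fun φ z hz => by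
    have h1 : (piExt M i φ) • (z : M) ∈ U := U.smul_mem _ hz
    have h2 : piPr (B := B) M i (z : M) = z := Subtype.ext z.2
    have h3 : (piExt M i φ) • (z : M) = ((φ z : piComp (B := B) M i) : M) := by
      show ((φ (piPr (B := B) M i (z : M))).1 : M) = _
      rw [h2]
    rw [h3] at h1
    exact h1

theorem LBd.pi {n : ℕ} (B : Fin n → Type u) [∀ i, Ring (B i)] (N : Fin n → ℕ)
    (h : ∀ i, LBd (B i) (N i)) : LBd (∀ i, B i) (∏ i, N i) := by
  intro M _ _
  let Φ : Submodule (Module.End (∀ i, B i) M) M →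
      (∀ i, Submodule (Module.End (B i) (piComp (B := B) M i)) (piComp (B := B) M i)) :=
    fun U i => compSub M U i
  have hle : ∀ U V : Submodule (Module.End (∀ i, B i) M) M, Φ U = Φ V → U ≤ V := by
    intro U V hUV u hu
    rw [← sum_pr (B := B) M u]
    refine Submodule.sum_mem _ fun i _ => ?_
    have h1 : ((piPr (B := B) M i u : piComp (B := B) M i) : M) ∈ U := by
      have h2 : (piExt M i (1 : Module.End (B i) (piComp (B := B) M i))) • u ∈ U :=
        U.smul_mem _ hu
      exact h2
    have h3 : piPr (B := B) M i u ∈ Φ U i := h1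
    rw [hUV] at h3
    exact h3
  have hinj : Function.Injective Φ := fun U V hUV => le_antisymm (hle U V hUV) (hle V U hUV.symm)
  have hfin : ∀ i, Finite (Submodule (Module.End (B i) (piComp (B := B) M i))
      (piComp (B := B) M i)) := fun i => (h i _).1
  refine ⟨Finite.of_injective Φ hinj, (Nat.card_le_card_of_injective Φ hinj).trans ?_⟩
  rw [Nat.card_pi]
  exact Finset.prod_le_prod' fun i _ => (h i _).2

/-- the radical of an artinian chain ring contains the element `p` -/
theorem pi_mem_jacobson {B : Type u} [Ring B] {p : B} (h : PiRing B p) :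
    p ∈ Ring.jacobson B := by
  rw [← Ideal.jacobson_bot, Ideal.mem_jacobson_iff]
  intro y
  rcases h.left (1 + y * p) with hu | ⟨c, hc⟩
  · obtain ⟨w, hw⟩ := hu
    refine ⟨(↑w⁻¹ : B), ?_⟩
    have h1 : (↑w⁻¹ : B) * y * p + ↑w⁻¹ - 1 = ↑w⁻¹ * (1 + y * p) - 1 := by noncomm_ring
    rw [h1, ← hw, Units.inv_mul, sub_self]
    exact Ideal.zero_mem _
  · exfalso
    refine h.left_not (y := c - y) ?_
    rw [sub_mul, ← hc]
    abel

theorem bound_pi {n : ℕ} (B : Fin n → Type u) [∀ i, Ring (B i)] (p : ∀ i, B i) (m : Fin n → ℕ)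
    (hp : ∀ i, PiRing (B i) (p i)) (hm : ∀ i, p i ^ m i = 0) :
    LBd (∀ i, B i) (2 ^ ∑ i, m i) := by
  rw [← Finset.prod_pow_eq_pow_sum]
  exact LBd.pi B (fun i => 2 ^ m i) fun i => PiRing.lbd (hp i) (hm i)

theorem exists_pis {n : ℕ} (B : Fin n → Type u) [∀ i, Ring (B i)] (m : Fin n → ℕ)
    (hB : ∀ i, IsArtinianChainRing (B i)) (hm : ∀ i, Ring.jacobson (B i) ^ m i = ⊥) :
    ∃ p : ∀ i, B i, (∀ i, PiRing (B i) (p i)) ∧ ∀ i, p i ^ m i = 0 := by
  choose p hp using fun i => (hB i).exists_piRing
  refine ⟨p, hp, fun i => ?_⟩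
  have h1 : p i ^ m i ∈ Ring.jacobson (B i) ^ m i :=
    Ideal.pow_mem_pow (pi_mem_jacobson (hp i)) _
  rw [hm i] at h1
  exact h1

/-- Right modules over a finite direct product of artinian chain rings. -/
theorem bound_right {A : Type u} [Ring A] {n : ℕ} (B : Fin n → Type u) [∀ i, Ring (B i)]
    (m : Fin n → ℕ) (hB : ∀ i, IsArtinianChainRing (B i))
    (hm : ∀ i, Ring.jacobson (B i) ^ m i = ⊥) (f : A ≃+* ∀ i, B i) :
    LBd Aᵐᵒᵖ (2 ^ ∑ i, m i) := by
  obtain ⟨p, hp, hpm⟩ := exists_pis B m hB hm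
  have h1 : LBd (∀ i, (B i)ᵐᵒᵖ) (2 ^ ∑ i, m i) :=
    bound_pi (fun i => (B i)ᵐᵒᵖ) (fun i => MulOpposite.op (p i)) m (fun i => (hp i).op)
      fun i => by rw [← MulOpposite.op_pow, hpm i, MulOpposite.op_zero]
  let e : (∀ i, B i)ᵐᵒᵖ ≃+* (∀ i, (B i)ᵐᵒᵖ) :=
    { toFun := fun x i => MulOpposite.op (MulOpposite.unop x i)
      invFun := fun y => MulOpposite.op (fun i => MulOpposite.unop (y i))
      left_inv := fun x => rfl
      right_inv := fun y => rfl
      map_mul' := fun x y => rfl
      map_add' := fun x y => rfl }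
  let g : Aᵐᵒᵖ ≃+* (∀ i, (B i)ᵐᵒᵖ) := (RingEquiv.op f).trans e
  exact LBd.of_surjective g.symm.toRingHom g.symm.surjective h1

/-- The radical of an artinian chain ring is nilpotent. -/
theorem jacobson_nilpotent {B : Type u} [Ring B] (h : IsArtinianChainRing B) :
    ∃ m : ℕ, Ring.jacobson B ^ m = ⊥ := by
  haveI := h.left_artinian
  exact IsSemiprimaryRing.isNilpotent

end Pool.Agent.Y2.Ds
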