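import Pool.Agent.Y2.Ds.Sharp

/-!
The maximal number of submodules over the endomorphism ring.
-/

set_option autoImplicit false

universe u v

namespace Pool.Agent.Y2.Ds

open Pool.Agent.Dist14

theorem jacobson_le {B : Type u} [Ring B] {p : B} (h : PiRing B p) :
    Ring.jacobson B ≤ Ideal.span {p} := by
  intro x hx
  rcases h.left x with ⟨w, hw⟩ | ⟨y, hy⟩
  · exfalso
    haveI := h.nontrivial
    rw [← Ideal.jacobson_bot, Ideal.mem_jacobson_iff] at hx
    obtain ⟨z, hz⟩ := hx (-(↑w⁻¹ : B))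
    have h1 : z * -(↑w⁻¹ : B) * x + z - 1 = -1 := by
      rw [← hw, mul_assoc, neg_mul, Units.inv_mul]
      simp
    rw [h1, Ideal.mem_bot] at hz
    exact one_ne_zero (neg_eq_zero.1 hz)
  · rw [hy]
    exact Ideal.mul_mem_left _ _ (Ideal.mem_span_singleton_self p)

theorem jacobson_pow_le {B : Type u} [Ring B] {p : B} (h : PiRing B p) (j : ℕ) :
    Ring.jacobson B ^ j ≤ Ideal.span {p ^ j} := by
  induction j with
  | zero => rw [pow_zero p, Ideal.span_singleton_one]; exact le_top
  | succ j ih =>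
    rw [Ideal.IsTwoSided.pow_succ, Ideal.mul_le]
    intro r hr s hs
    obtain ⟨c, rfl⟩ := Ideal.mem_span_singleton'.1 (jacobson_le h hr)
    obtain ⟨d, rfl⟩ := Ideal.mem_span_singleton'.1 (ih hs)
    obtain ⟨d', hd'⟩ := h.comm_left d
    refine Ideal.mem_span_singleton'.2 ⟨c * d', ?_⟩
    calc c * d' * p ^ (j + 1) = c * (d' * p) * p ^ j := by rw [pow_succ']; simp only [mul_assoc]
      _ = c * p * (d * p ^ j) := by rw [← hd']; simp only [mul_assoc]

theorem exists_pis' {n : ℕ} (B : Fin n → Type u) [∀ i, Ring (B i)] (m : Fin n → ℕ)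
    (hB : ∀ i, IsArtinianChainRing (B i)) (hm : ∀ i, Ring.jacobson (B i) ^ m i = ⊥)
    (hm' : ∀ i, ∀ j < m i, Ring.jacobson (B i) ^ j ≠ ⊥) :
    ∃ p : ∀ i, B i, (∀ i, PiRing (B i) (p i)) ∧ (∀ i, p i ^ m i = 0) ∧
      ∀ i, ∀ j < m i, p i ^ j ≠ 0 := by
  obtain ⟨p, hp, hpm⟩ := exists_pis B m hB hm
  refine ⟨p, hp, hpm, fun i j hj h0 => hm' i j hj ?_⟩
  have := jacobson_pow_le (hp i) j
  rw [h0] at this
  rw [eq_bot_iff]
  refine this.trans ?_
  rw [Ideal.span_le]
  simp

theorem attained_of_equiv {R S : Type u} [Ring R] [Ring S] (f : S ≃+* R) {N K : ℕ}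
    (hK : LBd S K)
    (h : ∃ (M : Type u) (_ : AddCommGroup M) (_ : Module R M),
      N ≤ Nat.card (Submodule (Module.End R M) M)) :
    ∃ (M : Type u) (_ : AddCommGroup M) (_ : Module S M),
      N ≤ Nat.card (Submodule (Module.End S M) M) := by
  obtain ⟨M, _, _, hN⟩ := h
  letI : Module S M := Module.compHom M f.toRingHom
  refine ⟨M, inferInstance, inferInstance, hN.trans ?_⟩
  let toR : Module.End S M → Module.End R M := fun ψ =>
    { toFun := ψ
      map_add' := ψ.map_add
      map_smul' := fun s z => by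
        obtain ⟨r, rfl⟩ := f.surjective s
        exact ψ.map_smul r z }
  let lift : Submodule (Module.End R M) M → Submodule (Module.End S M) M := fun U =>
    { carrier := U
      add_mem' := fun ha hb => U.add_mem ha hb
      zero_mem' := U.zero_mem
      smul_mem' := fun ψ z hz => U.smul_mem (toR ψ) hz }
  have hinj : Function.Injective lift := by
    intro U V hUV
    ext x
    exact SetLike.ext_iff.1 hUV x
  have := (hK M).1
  exact Nat.card_le_card_of_injective lift hinj

/-- Right modules over a finite direct product of artinian chain rings: the maximum. -/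
theorem attained_right {A : Type u} [Ring A] {n : ℕ} (B : Fin n → Type u) [∀ i, Ring (B i)]
    (m : Fin n → ℕ) (hB : ∀ i, IsArtinianChainRing (B i))
    (hm : ∀ i, Ring.jacobson (B i) ^ m i = ⊥)
    (hm' : ∀ i, ∀ j < m i, Ring.jacobson (B i) ^ j ≠ ⊥) (f : A ≃+* ∀ i, B i) :
    ∃ (M : Type u) (_ : AddCommGroup M) (_ : Module Aᵐᵒᵖ M),
      2 ^ ∑ i, m i ≤ Nat.card (Submodule (Module.End Aᵐᵒᵖ M) M) := by
  obtain ⟨p, hp, hpm, hpm'⟩ := exists_pis' B m hB hm hm'
  have h1 := attained (fun i => (B i)ᵐᵒᵖ) (fun i => MulOpposite.op (p i)) m (fun i => (hp i).op)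
      (fun i => by rw [← MulOpposite.op_pow, hpm i, MulOpposite.op_zero])
      (fun i j hj => by
        rw [← MulOpposite.op_pow]
        intro h0
        exact hpm' i j hj (MulOpposite.op_injective h0))
  let e : (∀ i, B i)ᵐᵒᵖ ≃+* (∀ i, (B i)ᵐᵒᵖ) :=
    { toFun := fun x i => MulOpposite.op (MulOpposite.unop x i)
      invFun := fun y => MulOpposite.op (fun i => MulOpposite.unop (y i))
      left_inv := fun x => rfl
      right_inv := fun y => rfl
      map_mul' := fun x y => rfl
      map_add' := fun x y => rfl }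
  exact attained_of_equiv ((RingEquiv.op f).trans e) (bound_right B m hB hm f) h1

/-- Left modules over a finite direct product of artinian chain rings. -/
theorem bound_left {A : Type u} [Ring A] {n : ℕ} (B : Fin n → Type u) [∀ i, Ring (B i)]
    (m : Fin n → ℕ) (hB : ∀ i, IsArtinianChainRing (B i))
    (hm : ∀ i, Ring.jacobson (B i) ^ m i = ⊥) (f : A ≃+* ∀ i, B i) :
    LBd A (2 ^ ∑ i, m i) := by
  obtain ⟨p, hp, hpm⟩ := exists_pis B m hB hm
  exact LBd.of_surjective f.symm.toRingHom f.symm.surjective (bound_pi B p m hp hpm)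

theorem attained_left {A : Type u} [Ring A] {n : ℕ} (B : Fin n → Type u) [∀ i, Ring (B i)]
    (m : Fin n → ℕ) (hB : ∀ i, IsArtinianChainRing (B i))
    (hm : ∀ i, Ring.jacobson (B i) ^ m i = ⊥)
    (hm' : ∀ i, ∀ j < m i, Ring.jacobson (B i) ^ j ≠ ⊥) (f : A ≃+* ∀ i, B i) :
    ∃ (M : Type u) (_ : AddCommGroup M) (_ : Module A M),
      2 ^ ∑ i, m i ≤ Nat.card (Submodule (Module.End A M) M) := by
  obtain ⟨p, hp, hpm, hpm'⟩ := exists_pis' B m hB hm hm'
  exact attained_of_equiv f (bound_left B m hB hm f) (attained B p m hp hpm hpm')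

end Pool.Agent.Y2.Ds
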