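import Pool.Agent.Helper927.Dist.F6

/-!
Submodules over the endomorphism ring, for modules over an artinian chain ring: there are at most
`2 ^ n` of them if the `n`-th power of the radical is zero.
-/

set_option autoImplicit false

universe u v

namespace Pool.Agent.Y2.Ds

open Pool.Agent.Dist14

/-- Over the ring `R` every left module has at most `N` submodules over its endomorphism ring. -/
def LBd (R : Type u) [Ring R] (N : ℕ) : Prop :=
  ∀ (M : Type u) [AddCommGroup M] [Module R M],
    Finite (Submodule (Module.End R M) M) ∧ Nat.card (Submodule (Module.End R M) M) ≤ N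

section

variable {B : Type u} [Ring B] (p : B) {M : Type u} [AddCommGroup M] [Module B M]

/-- `p ^ a` maps the elements killed by `p ^ k` into `U` -/
def SubP (U : Submodule (Module.End B M) M) (k a : ℕ) : Prop :=
  ∀ w : M, p ^ k • w = 0 → p ^ a • w ∈ U

variable {p}

theorem SubP.succ {U : Submodule (Module.End B M) M} {k a : ℕ} (h : SubP p U k a) :
    SubP p U k (a + 1) := by
  intro w hw
  rw [pow_succ, mul_smul]
  refine h _ ?_
  rw [smul_smul, ← pow_succ, pow_succ', mul_smul, hw, smul_zero]

theorem SubP.mono {U : Submodule (Module.End B M) M} {k a b : ℕ} (h : SubP p U k a)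
    (hab : a ≤ b) : SubP p U k b := by
  induction b, hab using Nat.le_induction with
  | base => exact h
  | succ b _ ih => exact ih.succ

theorem SubP.pred {U : Submodule (Module.End B M) M} {k a : ℕ} (h : SubP p U (k + 1) a) :
    SubP p U k a := by
  intro w hw
  refine h w ?_
  rw [pow_succ', mul_smul, hw, smul_zero]

theorem SubP.up {U : Submodule (Module.End B M) M} {k a : ℕ} (h : SubP p U k a) :
    SubP p U (k + 1) (a + 1) := by
  intro w hw
  rw [pow_succ, mul_smul]
  refine h _ ?_
  rw [smul_smul, ← pow_succ, hw]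

theorem SubP.self (U : Submodule (Module.End B M) M) (k : ℕ) : SubP p U k k := by
  intro w hw
  rw [hw]
  exact U.zero_mem

variable (p)

/-- the least `a` -/
noncomputable def gP (U : Submodule (Module.End B M) M) (k : ℕ) : ℕ := sInf {a | SubP p U k a}

variable {p}

theorem gP_mem (U : Submodule (Module.End B M) M) (k : ℕ) : SubP p U k (gP p U k) :=
  Nat.sInf_mem (s := {a | SubP p U k a}) ⟨k, SubP.self U k⟩

theorem gP_le {U : Submodule (Module.End B M) M} {k a : ℕ} (h : SubP p U k a) :
    gP p U k ≤ a := Nat.sInf_le h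

theorem subP_iff (U : Submodule (Module.End B M) M) (k a : ℕ) : SubP p U k a ↔ gP p U k ≤ a :=
  ⟨gP_le, fun h => (gP_mem U k).mono h⟩

theorem gP_zero (U : Submodule (Module.End B M) M) : gP p U 0 = 0 :=
  Nat.le_zero.1 (gP_le (SubP.self U 0))

theorem gP_succ (U : Submodule (Module.End B M) M) (k : ℕ) :
    gP p U (k + 1) = gP p U k ∨ gP p U (k + 1) = gP p U k + 1 := by
  have h1 : gP p U k ≤ gP p U (k + 1) := gP_le (gP_mem U (k + 1)).pred
  have h2 : gP p U (k + 1) ≤ gP p U k + 1 := gP_le (gP_mem U k).up
  omega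

theorem gP_eq {U V : Submodule (Module.End B M) M} {n : ℕ}
    (h : ∀ k < n, (gP p U (k + 1) = gP p U k ↔ gP p V (k + 1) = gP p V k)) :
    ∀ k ≤ n, gP p U k = gP p V k := by
  intro k
  induction k with
  | zero => intro _; rw [gP_zero, gP_zero]
  | succ k ih =>
    intro hk
    have h1 := ih (by omega)
    have h2 := h k (by omega)
    rcases gP_succ (p := p) U k with h3 | h3
    · rw [h3, h2.1 h3, h1]
    · rcases gP_succ (p := p) V k with h4 | h4
      · rw [h4, h2.2 h4, h1]
      · rw [h3, h4, h1]

/-- maps out of a cyclic module -/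
theorem exists_map (h : PiRing B p) (z w : M) (k : ℕ) (hk : p ^ k • w = 0)
    (hmin : ∀ j < k, p ^ j • z ≠ 0) :
    ∃ φ : Submodule.span B ({z} : Set M) →ₗ[B] M, ∀ r : B,
      φ (r • ⟨z, Submodule.mem_span_singleton_self z⟩) = r • w := by
  set z' : Submodule.span B ({z} : Set M) := ⟨z, Submodule.mem_span_singleton_self z⟩ with hz'
  let f : B →ₗ[B] Submodule.span B ({z} : Set M) := LinearMap.toSpanSingleton B _ z'
  have hf : Function.Surjective f := by
    rintro ⟨y, hy⟩
    obtain ⟨b, rfl⟩ := Submodule.mem_span_singleton.1 hy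
    exact ⟨b, rfl⟩
  let g : B →ₗ[B] M := LinearMap.toSpanSingleton B M w
  have hker : LinearMap.ker f ≤ LinearMap.ker g := by
    intro r hr
    rw [LinearMap.mem_ker] at hr ⊢
    have h1 : r • z = 0 := congrArg Subtype.val hr
    show r • w = 0
    rcases eq_or_ne r 0 with rfl | hr0
    · simp
    obtain ⟨j, v, _, hv⟩ := h.exists_unit_mul r hr0
    have h2 : p ^ j • z = 0 := by
      have : p ^ j • z = (↑v⁻¹ : B) • (r • z) := by
        rw [hv, smul_smul, ← mul_assoc, Units.inv_mul, one_mul]
      rw [this, h1, smul_zero]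
    have h3 : k ≤ j := by
      by_contra hcon
      exact hmin j (by omega) h2
    rw [hv, mul_smul, ← Nat.sub_add_cancel h3, pow_add, mul_smul, hk, smul_zero, smul_zero]
  refine ⟨((LinearMap.ker f).liftQ g hker).comp (f.quotKerEquivOfSurjective hf).symm.toLinearMap,
    fun r => ?_⟩
  have h3 : (f.quotKerEquivOfSurjective hf).symm (r • z') = Submodule.Quotient.mk r := by
    rw [LinearEquiv.symm_apply_eq]
    rfl
  rw [LinearMap.comp_apply, LinearEquiv.coe_coe, h3]
  rfl

/-- an element of `U` in a cyclic direct summand lies in `V` -/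
theorem mem_of_cyclic (h : PiRing B p) {n : ℕ} (hn : p ^ n = 0)
    {U V : Submodule (Module.End B M) M} (hUV : ∀ k ≤ n, gP p U k = gP p V k)
    (N : Submodule B M) (z : M) (hN : N = Submodule.span B {z}) (π : M →ₗ[B] N)
    (hπ : ∀ x : N, π x = x) (x : M) (hx : x ∈ N) (hxU : x ∈ U) : x ∈ V := by
  classical
  subst hN
  obtain ⟨a, rfl⟩ := Submodule.mem_span_singleton.1 hx
  rcases eq_or_ne a 0 with rfl | ha
  · rw [zero_smul]; exact V.zero_mem
  obtain ⟨j, v, _, hv⟩ := h.exists_mul_unit a ha
  have hex : ∃ k, p ^ k • z = 0 := ⟨n, by rw [hn, zero_smul]⟩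
  set k := Nat.find hex with hk
  have hk0 : p ^ k • z = 0 := Nat.find_spec hex
  have hmin : ∀ i < k, p ^ i • z ≠ 0 := fun i hi => Nat.find_min hex hi
  have hkn : k ≤ n := Nat.find_min' hex (by rw [hn, zero_smul])
  -- `p ^ k` kills all multiples
  have hkill : ∀ (c : B) (w : M), p ^ k • w = 0 → p ^ k • (c • w) = 0 := by
    intro c w hw
    obtain ⟨c', hc'⟩ := h.comm_left_pow k c
    rw [smul_smul, hc', mul_smul, hw, smul_zero]
  have hsub : SubP p U k j := by
    intro w hw
    obtain ⟨φ, hφ⟩ := exists_map h z ((↑v⁻¹ : B) • w) k (hkill _ _ hw) hmin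
    have h1 : ((φ.comp π : Module.End B M)) • (a • z) ∈ U := U.smul_mem _ hxU
    have h2 : ((φ.comp π : Module.End B M)) • (a • z) = p ^ j • w := by
      show φ (π (a • z)) = _
      have h3 : π (a • z) = a • ⟨z, Submodule.mem_span_singleton_self z⟩ :=
        hπ (a • ⟨z, Submodule.mem_span_singleton_self z⟩)
      rw [h3, hφ, hv, smul_smul, mul_assoc, Units.mul_inv, mul_one]
    rwa [h2] at h1
  have hsubV : SubP p V k j := by
    rw [subP_iff] at hsub ⊢
    rwa [← hUV k hkn]
  have := hsubV ((v : B) • z) (hkill _ _ hk0)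
  rwa [smul_smul, ← hv] at this

theorem le_of_gP (h : PiRing B p) {n : ℕ} (hn : p ^ n = 0)
    {U V : Submodule (Module.End B M) M} (hUV : ∀ k ≤ n, gP p U k = gP p V k) : U ≤ V := by
  classical
  obtain ⟨ι, N, hind, htop, hcyc⟩ := h.exists_decomp M
  have hint : DirectSum.IsInternal N :=
    DirectSum.isInternal_submodule_of_iSupIndep_of_iSup_eq_top hind htop
  let E : (DirectSum ι (fun i => N i)) ≃ₗ[B] M := LinearEquiv.ofBijective (DirectSum.coeLinearMap N) hint
  let π : ∀ i, M →ₗ[B] N i := fun i => (DirectSum.component B ι (fun i => N i) i).comp E.symm.toLinearMap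
  have hπ : ∀ i (x : N i), π i x = x := by
    intro i x
    have h1 : E.symm (x : M) = DirectSum.lof B ι (fun i => N i) i x := by
      rw [LinearEquiv.symm_apply_eq]
      exact (DirectSum.coeLinearMap_lof N i x).symm
    show (DirectSum.component B ι (fun i => N i) i) (E.symm (x : M)) = x
    rw [h1, DirectSum.component.lof_self]
  intro u hu
  have hcomp : ∀ i, ((π i u : N i) : M) ∈ V := by
    intro i
    obtain ⟨z, hz⟩ := hcyc i
    refine mem_of_cyclic h hn hUV (N i) z hz (π i) (hπ i) _ (π i u).2 ?_
    have := U.smul_mem (((N i).subtype.comp (π i) : Module.End B M)) hu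
    exact this
  have hsum : u = ∑ i ∈ (E.symm u).support, ((π i u : N i) : M) := by
    have h1 : E (∑ i ∈ (E.symm u).support, DirectSum.of (fun i => N i) i ((E.symm u) i)) = u := by
      rw [DirectSum.sum_support_of, LinearEquiv.apply_symm_apply]
    rw [map_sum] at h1
    refine h1.symm.trans (Finset.sum_congr rfl fun i _ => ?_)
    exact DirectSum.coeLinearMap_lof N i _
  rw [hsum]
  exact Submodule.sum_mem _ fun i _ => hcomp i

end

/-- Over an artinian chain ring with `p ^ n = 0` every module has at most `2 ^ n` submodules over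
its endomorphism ring. -/
theorem PiRing.lbd {B : Type u} [Ring B] {p : B} (h : PiRing B p) {n : ℕ} (hn : p ^ n = 0) :
    LBd B (2 ^ n) := by
  classical
  intro M _ _
  let Φ : Submodule (Module.End B M) M → (Fin n → Bool) :=
    fun U k => decide (gP p U (k + 1) = gP p U k)
  have hinj : Function.Injective Φ := by
    intro U V hUV
    have hg : ∀ k ≤ n, gP p U k = gP p V k := by
      refine gP_eq fun k hk => ?_
      have := congrFun hUV ⟨k, hk⟩
      simpa [Φ] using this
    exact le_antisymm (le_of_gP h hn hg) (le_of_gP h hn fun k hk => (hg k hk).symm)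
  refine ⟨Finite.of_injective Φ hinj, ?_⟩
  have := Nat.card_le_card_of_injective Φ hinj
  simpa using this

end Pool.Agent.Y2.Ds
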