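import Pool.Agent.Y2.Ds.Bound

/-!
The bound for the number of submodules over the endomorphism ring is attained.
-/

set_option autoImplicit false

universe u v

namespace Pool.Agent.Y2.Ds

open Pool.Agent.Dist14

/-! ### Calculations in one ring -/

section one

variable {C : Type u} [Ring C] {p : C}

theorem one_sub_unit (h : PiRing C p) (d : C) (t : ℕ) (ht : 1 ≤ t) : IsUnit (1 - d * p ^ t) := by
  rcases h.left (1 - d * p ^ t) with hu | ⟨c, hc⟩
  · exact hu
  · exfalso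
    obtain ⟨s, rfl⟩ : ∃ s, t = s + 1 := ⟨t - 1, by omega⟩
    refine h.left_not (y := c + d * p ^ s) ?_
    rw [add_mul, ← hc, mul_assoc, ← pow_succ]
    abel

theorem pow_eq_zero_of (h : PiRing C p) (d : C) (a k : ℕ) (hak : a < k)
    (hd : p ^ a = d * p ^ k) : p ^ a = 0 := by
  obtain ⟨t, ht, rfl⟩ : ∃ t, 1 ≤ t ∧ k = t + a := ⟨k - a, by omega, by omega⟩
  obtain ⟨w, hw⟩ := one_sub_unit h d t ht
  have h1 : (1 - d * p ^ t) * p ^ a = 0 := by
    rw [sub_mul, one_mul, mul_assoc, ← pow_add, ← hd, sub_self]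
  rw [← hw] at h1
  calc p ^ a = ↑w⁻¹ * (↑w * p ^ a) := by rw [← mul_assoc, Units.inv_mul, one_mul]
    _ = 0 := by rw [h1, mul_zero]

/-- the main calculation -/
theorem calc_one (h : PiRing C p) {m : ℕ} (hm : ∀ j < m, p ^ j ≠ 0) (r c : C)
    (k k' b b' : ℕ) (hkm : k ≤ m) (hr : p ^ k' * r = c * p ^ k) (hbb : b ≤ b' ∨ b + k' ≤ b' + k) 
    (hb1 : k ≤ k' → b ≤ b') :
    ∃ e, p ^ b' * r = p ^ b * e := by
  rcases eq_or_ne r 0 with rfl | hr0
  · exact ⟨0, by simp⟩
  obtain ⟨j, v, _, hv⟩ := h.exists_mul_unit r hr0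
  rcases le_or_gt b (b' + j) with hle | hlt
  · refine ⟨p ^ (b' + j - b) * v, ?_⟩
    rw [hv, ← mul_assoc, ← mul_assoc, ← pow_add, ← pow_add]
    congr 2
    omega
  · exfalso
    have hkk : k' < k := by
      by_contra hcon
      have := hb1 (by omega)
      omega
    have hj : k' + j < k := by omega
    obtain ⟨c', hc'⟩ := h.comm_left_pow k (↑v⁻¹ : C)
    have h1 : p ^ (k' + j) = (c * c') * p ^ k := by
      calc p ^ (k' + j) = p ^ k' * (p ^ j * ↑v) * ↑v⁻¹ := by
            rw [pow_add]; simp [mul_assoc]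
        _ = c * p ^ k * ↑v⁻¹ := by rw [← hv, hr]
        _ = (c * c') * p ^ k := by rw [mul_assoc, hc', mul_assoc]
    exact hm (k' + j) (by omega) (pow_eq_zero_of h _ _ _ hj h1)

theorem calc_two (h : PiRing C p) {m : ℕ} (hm : ∀ j < m, p ^ j ≠ 0) (c d : C)
    (a b k : ℕ) (hbk : b ≤ k) (hkm : k ≤ m) (hr : p ^ a - p ^ b * c = d * p ^ k) : b ≤ a := by
  by_contra hcon
  obtain ⟨c', hc'⟩ := h.comm_left_pow b c
  refine hm a (by omega) (pow_eq_zero_of h (c' + d * p ^ (k - b)) a b (by omega) ?_)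
  rw [add_mul, mul_assoc d, ← pow_add, Nat.sub_add_cancel hbk, ← hr, ← hc']
  abel

end one

/-! ### The module -/

section mod

variable {n : ℕ} {C : Fin n → Type u} [∀ i, Ring (C i)] (p : ∀ i, C i) (m : Fin n → ℕ)

/-- the left ideal of the elements `r` with `r i` in `C i * p i ^ k` -/
def idl (i : Fin n) (k : ℕ) : Ideal (∀ i, C i) where
  carrier := {r | ∃ c, r i = c * p i ^ k}
  add_mem' := by
    rintro a b ⟨c, hc⟩ ⟨d, hd⟩
    exact ⟨c + d, by rw [Pi.add_apply, hc, hd, add_mul]⟩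
  zero_mem' := ⟨0, by simp⟩
  smul_mem' := by
    rintro r a ⟨c, hc⟩
    exact ⟨r i * c, by rw [smul_eq_mul, Pi.mul_apply, hc, mul_assoc]⟩

/-- the direct sum of the modules `C i ⧸ C i * p i ^ k`, `1 ≤ k ≤ m i` -/
abbrev Mod : Type u := ∀ s : (Σ i : Fin n, Fin (m i)), (∀ i, C i) ⧸ idl p s.1 (s.2.1 + 1)

/-- the element `p i ^ a` of the ring `C i`, as an element of the product -/
def P (i : Fin n) (a : ℕ) : ∀ i, C i := Pi.single i (p i ^ a)

/-- the elements `p ^ (g i k) w` with `p ^ k w = 0` -/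
def genSet (g : Fin n → ℕ → ℕ) : Set (Mod p m) :=
  {x | ∃ (i : Fin n) (k : ℕ) (w : Mod p m), P p i k • w = 0 ∧ x = P p i (g i k) • w}

/-- the submodule over the endomorphism ring generated by them -/
def subG (g : Fin n → ℕ → ℕ) : Submodule (Module.End (∀ i, C i) (Mod p m)) (Mod p m) where
  carrier := AddSubgroup.closure (genSet p m g)
  add_mem' := fun ha hb => AddSubgroup.add_mem _ ha hb
  zero_mem' := AddSubgroup.zero_mem _
  smul_mem' := by
    intro φ x hx
    have hx' : x ∈ AddSubgroup.closure (genSet p m g) := hx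
    clear hx
    show φ x ∈ AddSubgroup.closure (genSet p m g)
    induction hx' using AddSubgroup.closure_induction with
    | mem x hx =>
      obtain ⟨i, k, w, hw, rfl⟩ := hx
      refine AddSubgroup.subset_closure ⟨i, k, φ w, ?_, ?_⟩
      · rw [← map_smul, hw, map_zero]
      · rw [map_smul]
    | zero => rw [map_zero]; exact AddSubgroup.zero_mem _
    | add x y _ _ h1 h2 => rw [map_add]; exact AddSubgroup.add_mem _ h1 h2
    | neg x _ h1 => rw [map_neg]; exact AddSubgroup.neg_mem _ h1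

variable {p m}

/-- the components of the elements -/
theorem comp_of_mem (hp : ∀ i, PiRing (C i) (p i)) (hm : ∀ i, ∀ j < m i, p i ^ j ≠ 0)
    {g : Fin n → ℕ → ℕ} (hg : ∀ i, ∀ k k', k ≤ k' → g i k ≤ g i k' ∧ g i k' + k ≤ g i k + k')
    {x : Mod p m} (hx : x ∈ subG p m g) (i : Fin n) (k : Fin (m i)) :
    ∃ r : ∀ i, C i, x ⟨i, k⟩ = Submodule.Quotient.mk r ∧
      ∃ e, r i = p i ^ (g i (k.1 + 1)) * e := by
  have hx' : x ∈ AddSubgroup.closure (genSet p m g) := hx
  clear hx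
  induction hx' using AddSubgroup.closure_induction with
  | mem x hx =>
    obtain ⟨i', k', w, hw, rfl⟩ := hx
    obtain ⟨r, hr⟩ := Submodule.Quotient.mk_surjective _ (w ⟨i, k⟩)
    refine ⟨P p i' (g i' k') * r, ?_, ?_⟩
    · rw [Pi.smul_apply, ← hr]; rfl
    · by_cases hi : i' = i
      · subst hi
        have h1 : P p i' k' • w ⟨i', k⟩ = 0 := by
          have := congrFun hw ⟨i', k⟩
          exact this
        rw [← hr, ← Submodule.Quotient.mk_smul, Submodule.Quotient.mk_eq_zero] at h1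
        obtain ⟨c, hc⟩ := h1
        have hc' : p i' ^ k' * r i' = c * p i' ^ (k.1 + 1) := by
          rw [← hc]
          simp [P]
        have h2 := hg i'
        obtain ⟨e, he⟩ := calc_one (hp i') (hm i') (r i') c (k.1 + 1) k' (g i' (k.1 + 1)) (g i' k')
          (by omega) hc' (by
            rcases le_total (k.1 + 1) k' with h | h
            · exact Or.inl (h2 _ _ h).1
            · exact Or.inr (h2 _ _ h).2) (fun h => (h2 _ _ h).1)
        refine ⟨e, ?_⟩
        rw [← he]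
        simp [P]
      · refine ⟨0, ?_⟩
        simp [P, Pi.single_eq_of_ne' hi]
  | zero => exact ⟨0, by simp, 0, by simp⟩
  | add x y _ _ h1 h2 =>
    obtain ⟨r, hr, e, he⟩ := h1
    obtain ⟨r', hr', e', he'⟩ := h2
    refine ⟨r + r', ?_, e + e', ?_⟩
    · rw [Pi.add_apply, hr, hr']; rfl
    · rw [Pi.add_apply, he, he', mul_add]
  | neg x _ h1 =>
    obtain ⟨r, hr, e, he⟩ := h1
    refine ⟨-r, ?_, -e, ?_⟩
    · rw [Pi.neg_apply, hr]; rfl
    · rw [Pi.neg_apply, he, mul_neg]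

/-- comparison of two submodules -/
theorem le_of_subG_le (hp : ∀ i, PiRing (C i) (p i)) (hm : ∀ i, ∀ j < m i, p i ^ j ≠ 0)
    {g g' : Fin n → ℕ → ℕ}
    (hg : ∀ i, ∀ k k', k ≤ k' → g i k ≤ g i k' ∧ g i k' + k ≤ g i k + k')
    (hg0 : ∀ i k, g i k ≤ k)
    (hle : subG p m g' ≤ subG p m g) (i : Fin n) (k : Fin (m i)) :
    g i (k.1 + 1) ≤ g' i (k.1 + 1) := by
  classical
  let z : Mod p m := Pi.single ⟨i, k⟩ (Submodule.Quotient.mk 1)
  have hz : P p i (k.1 + 1) • z = 0 := by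
    rw [← Pi.single_smul, ← Submodule.Quotient.mk_smul]
    have : (Submodule.Quotient.mk (P p i (k.1 + 1) • (1 : ∀ i, C i)) :
        (∀ i, C i) ⧸ idl p i (k.1 + 1)) = 0 := by
      rw [Submodule.Quotient.mk_eq_zero]
      exact ⟨1, by simp [P]⟩
    rw [this, Pi.single_zero]
  have h1 : P p i (g' i (k.1 + 1)) • z ∈ subG p m g' :=
    AddSubgroup.subset_closure ⟨i, k.1 + 1, z, hz, rfl⟩
  obtain ⟨r, hr, e, he⟩ := comp_of_mem hp hm hg (hle h1) i k
  have h2 : (P p i (g' i (k.1 + 1)) • z) ⟨i, k⟩ =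
      Submodule.Quotient.mk (P p i (g' i (k.1 + 1))) := by
    rw [Pi.smul_apply]
    have : z ⟨i, k⟩ = Submodule.Quotient.mk 1 := Pi.single_eq_same _ _
    rw [this, ← Submodule.Quotient.mk_smul, smul_eq_mul, mul_one]
  rw [h2, Submodule.Quotient.eq] at hr
  obtain ⟨d, hd⟩ := hr
  refine calc_two (hp i) (hm i) e d _ _ (k.1 + 1) (hg0 _ _) (by omega) ?_
  rw [← hd, Pi.sub_apply, he]
  simp [P]

end mod

/-- the function attached to a family of signs -/
noncomputable def cnt {n : ℕ} {m : Fin n → ℕ} (x : ∀ i, Fin (m i) → Bool) (i : Fin n) (k : ℕ) : ℕ :=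
  open Classical in Nat.count (fun j => ∃ h : j < m i, x i ⟨j, h⟩ = true) k

theorem cnt_le {n : ℕ} {m : Fin n → ℕ} (x : ∀ i, Fin (m i) → Bool) (i : Fin n) (k : ℕ) :
    cnt x i k ≤ k := by
  classical
  exact Nat.count_le _

theorem cnt_step {n : ℕ} {m : Fin n → ℕ} (x : ∀ i, Fin (m i) → Bool) (i : Fin n) (k k' : ℕ)
    (h : k ≤ k') : cnt x i k ≤ cnt x i k' ∧ cnt x i k' + k ≤ cnt x i k + k' := by
  classical
  obtain ⟨t, rfl⟩ := Nat.exists_eq_add_of_le h
  unfold cnt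
  rw [Nat.count_add]
  have : Nat.count (fun j => ∃ h : k + j < m i, x i ⟨k + j, h⟩ = true) t ≤ t := Nat.count_le _
  omega

theorem cnt_inj {n : ℕ} {m : Fin n → ℕ} {x y : ∀ i, Fin (m i) → Bool}
    (h : ∀ i (k : Fin (m i)), cnt x i (k.1 + 1) = cnt y i (k.1 + 1)) : x = y := by
  classical
  funext i k
  have h1 : cnt x i k.1 = cnt y i k.1 := by
    rcases Nat.eq_zero_or_pos k.1 with h0 | h0
    · rw [h0]; simp [cnt]
    · have := h i ⟨k.1 - 1, by omega⟩
      simpa [Nat.sub_add_cancel h0] using this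
  have h2 := h i k
  unfold cnt at h1 h2
  rw [Nat.count_succ, Nat.count_succ, h1] at h2
  have hx : (∃ h : k.1 < m i, x i ⟨k.1, h⟩ = true) ↔ x i k = true := ⟨fun ⟨_, h⟩ => h, fun h => ⟨k.2, h⟩⟩
  have hy : (∃ h : k.1 < m i, y i ⟨k.1, h⟩ = true) ↔ y i k = true := ⟨fun ⟨_, h⟩ => h, fun h => ⟨k.2, h⟩⟩
  simp only [hx, hy] at h2
  cases hxk : x i k <;> cases hyk : y i k <;> simp_all

/-- The bound is attained. -/
theorem attained {n : ℕ} (C : Fin n → Type u) [∀ i, Ring (C i)] (p : ∀ i, C i) (m : Fin n → ℕ)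
    (hp : ∀ i, PiRing (C i) (p i)) (hm : ∀ i, p i ^ m i = 0) (hm' : ∀ i, ∀ j < m i, p i ^ j ≠ 0) :
    ∃ (M : Type u) (_ : AddCommGroup M) (_ : Module (∀ i, C i) M),
      2 ^ ∑ i, m i ≤ Nat.card (Submodule (Module.End (∀ i, C i) M) M) := by
  classical
  refine ⟨Mod p m, inferInstance, inferInstance, ?_⟩
  let Φ : (∀ i, Fin (m i) → Bool) → Submodule (Module.End (∀ i, C i) (Mod p m)) (Mod p m) :=
    fun x => subG p m (cnt x)
  have hinj : Function.Injective Φ := by
    intro x y hxy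
    refine cnt_inj fun i k => le_antisymm ?_ ?_
    · exact le_of_subG_le hp hm' (cnt_step x) (cnt_le x) (le_of_eq hxy.symm) i k
    · exact le_of_subG_le hp hm' (cnt_step y) (cnt_le y) (le_of_eq hxy) i k
  have hfin := (bound_pi C p m hp hm (Mod p m)).1
  have := Nat.card_le_card_of_injective Φ hinj
  refine le_trans (le_of_eq ?_) this
  rw [Nat.card_pi, ← Finset.prod_pow_eq_pow_sum]
  refine Finset.prod_congr rfl fun i _ => ?_
  simp

end Pool.Agent.Y2.Ds
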